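import Mathlib

/-!
# Disproof of Thomassé's conjecture on maximal `C_{≤3}`-free digraphs without homogeneous sets
-/

set_option autoImplicit false

namespace Pool.Agent.Results.MP_ba12ad_co.Disproof

/-- A digraph (given by its arc relation) is `C_{≤3}`-free: no loop, no directed 2-cycle,
no directed triangle. -/
def C3Free {V : Type} (A : V → V → Prop) : Prop :=
  (∀ u, ¬ A u u) ∧ (∀ u v, A u v → ¬ A v u) ∧ (∀ u v w, A u v → A v w → ¬ A w u)

/-- Maximal `C_{≤3}`-free: adding any missing arc `u → v`, `u ≠ v`, destroys `C_{≤3}`-freeness. -/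
def MaximalC3Free {V : Type} (A : V → V → Prop) : Prop :=
  C3Free A ∧ ∀ u v, u ≠ v → ¬ A u v → ¬ C3Free (fun x y => A x y ∨ (x = u ∧ y = v))

/-- `X` is a homogeneous set. -/
def Homogeneous {V : Type} [Fintype V] [DecidableEq V] (A : V → V → Prop) (X : Finset V) : Prop :=
  2 ≤ X.card ∧ X.card < Fintype.card V ∧
    ∀ w, w ∉ X → (∀ x ∈ X, A w x) ∨ (∀ x ∈ X, A x w) ∨ (∀ x ∈ X, ¬ A w x ∧ ¬ A x w)

/-- The circular interval digraph `C_{3k+1}^k`: arcs `i → i + j`, `1 ≤ j ≤ k`, on `ℤ/(3k+1)`. -/
def Circ (k : ℕ) (i i' : ZMod (3 * k + 1)) : Prop :=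
  ∃ j : ℕ, 1 ≤ j ∧ j ≤ k ∧ i' = i + (j : ZMod (3 * k + 1))

/-- The conjecture: every maximal `C_{≤3}`-free digraph on `n` vertices without homogeneous set
and with minimum outdegree `> 4n/15` is isomorphic to some `C_{3k+1}^k`. -/
def ThomasseConjecture : Prop :=
  ∀ (V : Type) [Fintype V] [DecidableEq V] (A : V → V → Prop),
    MaximalC3Free A → (∀ X : Finset V, ¬ Homogeneous A X) →
    (∀ v, 4 * Fintype.card V < 15 * Set.ncard {w | A v w}) →
    ∃ k : ℕ, 1 ≤ k ∧ Fintype.card V = 3 * k + 1 ∧
      ∃ e : V ≃ ZMod (3 * k + 1), ∀ u v, A u v ↔ Circ k (e u) (e v)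

/-! ### The counterexample on 11 vertices -/

def out : Fin 11 → ℕ :=
  ![2^1+2^2+2^3+2^7+2^8+2^9, 2^3+2^7+2^9, 2^1+2^3+2^7, 2^7+2^8+2^9, 2^5+2^6+2^10, 2^1+2^2+2^10,
    2^2+2^5+2^10, 2^4+2^8+2^9, 2^4+2^5+2^6, 2^4+2^6+2^8, 2^0+2^1+2^2+2^3]

def Ab (u v : Fin 11) : Bool := (out u).testBit v.val

def A (u v : Fin 11) : Prop := Ab u v = true

instance : DecidableRel A := fun u v => inferInstanceAs (Decidable (Ab u v = true))

theorem free : C3Free A := by
  unfold C3Free; decide +kernel

theorem maxl : MaximalC3Free A := by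
  refine ⟨free, ?_⟩
  have h : ∀ u v : Fin 11, u ≠ v → ¬ A u v → A v u ∨ ∃ w, A v w ∧ A w u := by decide +kernel
  intro u v huv hA hfree
  rcases h u v huv hA with h1 | ⟨w, h1, h2⟩
  · exact hfree.2.1 u v (Or.inr ⟨rfl, rfl⟩) (Or.inl h1)
  · exact hfree.2.2 u v w (Or.inr ⟨rfl, rfl⟩) (Or.inl h1) (Or.inl h2)

theorem outdeg : ∀ v : Fin 11, 3 ≤ (Finset.univ.filter (fun w => A v w)).card := by decide +kernel

/-- a vertex distinguishing `x` and `y` -/
def dis (w x y : Fin 11) : Bool := (Ab w x != Ab w y) || (Ab x w != Ab y w)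

/-- the subset coded by the boolean list `l` is not split by an outside vertex -/
def closedL (l : List Bool) : Bool :=
  (List.finRange 11).all (fun w => l.getD w.val false ||
    (List.finRange 11).all (fun x => (List.finRange 11).all
      (fun y => !(l.getD x.val false && l.getD y.val false && dis w x y))))

def conclL (l : List Bool) : Bool :=
  (List.finRange 11).all (fun w => l.getD w.val false) ||
    (List.finRange 11).all (fun x => (List.finRange 11).all
      (fun y => !(l.getD x.val false && l.getD y.val false) || x == y))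

/-- all boolean lists of length `n` -/
def allL : ℕ → List (List Bool)
  | 0 => [[]]
  | n + 1 => (allL n).flatMap (fun l => [false :: l, true :: l])

theorem mem_allL (n : ℕ) (l : List Bool) (h : l.length = n) : l ∈ allL n := by
  induction n generalizing l with
  | zero => rw [List.length_eq_zero_iff] at h; simp [allL, h]
  | succ n ih =>
    cases l with
    | nil => simp at h
    | cons b l =>
      simp only [allL, List.mem_flatMap]
      refine ⟨l, ih l (by simpa using h), ?_⟩
      cases b <;> simp

theorem nohom_check : (allL 11).all (fun l => !(closedL l) || conclL l) = true := by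
  decide +kernel

theorem nohom_fun (f : Fin 11 → Bool)
    (h : ∀ w, f w = true ∨ ∀ x y, f x = true → f y = true → dis w x y = false) :
    (∀ w, f w = true) ∨ (∀ x y, f x = true → f y = true → x = y) := by
  have hg : ∀ i : Fin 11, (List.ofFn f).getD i.val false = f i := by
    intro i
    fin_cases i <;> rfl
  have h1 := List.all_eq_true.1 nohom_check (List.ofFn f) (mem_allL 11 _ (by simp))
  have h2 : closedL (List.ofFn f) = true := by
    unfold closedL
    rw [List.all_eq_true]
    intro w _
    rw [Bool.or_eq_true]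
    rcases h w with h | h
    · left; rw [hg]; exact h
    · right
      rw [List.all_eq_true]; intro x _
      rw [List.all_eq_true]; intro y _
      rw [hg, hg]
      cases hx : f x <;> cases hy : f y <;> simp
      exact h x y hx hy
  rw [h2] at h1
  simp only [Bool.not_true, Bool.false_or] at h1
  unfold conclL at h1
  rw [Bool.or_eq_true] at h1
  rcases h1 with h1 | h1
  · left
    rw [List.all_eq_true] at h1
    intro w
    have := h1 w (List.mem_finRange w)
    rwa [hg] at this
  · right
    rw [List.all_eq_true] at h1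
    intro x y hx hy
    have := h1 x (List.mem_finRange x)
    rw [List.all_eq_true] at this
    have := this y (List.mem_finRange y)
    rw [hg, hg, hx, hy] at this
    simpa using this

theorem dis_false {w x y : Fin 11} (h1 : A w x ↔ A w y) (h2 : A x w ↔ A y w) : dis w x y = false := by
  unfold A at h1 h2
  unfold dis
  rw [Bool.eq_iff_iff.2 h1, Bool.eq_iff_iff.2 h2]
  simp

theorem nohom (X : Finset (Fin 11)) : ¬ Homogeneous A X := by
  rintro ⟨h2, h11, h⟩
  have key := nohom_fun (fun i => decide (i ∈ X)) (by
    intro w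
    by_cases hw : w ∈ X
    · left; simpa using hw
    · right
      intro x y hx hy
      have hx : x ∈ X := by simpa using hx
      have hy : y ∈ X := by simpa using hy
      have hd := free.2.1
      rcases h w hw with h | h | h
      · apply dis_false
        · exact ⟨fun _ => h y hy, fun _ => h x hx⟩
        · exact ⟨fun h' => absurd h' (hd _ _ (h x hx)), fun h' => absurd h' (hd _ _ (h y hy))⟩
      · apply dis_false
        · exact ⟨fun h' => absurd h' (hd _ _ (h x hx)), fun h' => absurd h' (hd _ _ (h y hy))⟩
        · exact ⟨fun _ => h y hy, fun _ => h x hx⟩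
      · apply dis_false
        · exact ⟨fun h' => absurd h' (h x hx).1, fun h' => absurd h' (h y hy).1⟩
        · exact ⟨fun h' => absurd h' (h x hx).2, fun h' => absurd h' (h y hy).2⟩)
  rcases key with k | k
  · have : X = Finset.univ := by
      ext i; simpa using k i
    rw [this, Finset.card_univ] at h11
    exact lt_irrefl _ h11
  · have : X.card ≤ 1 := by
      rw [Finset.card_le_one]
      intro a ha b hb
      exact k a b (by simpa using ha) (by simpa using hb)
    omega

/-- Thomassé's conjecture is false. -/
theorem result : ¬ ThomasseConjecture := by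
  intro H
  obtain ⟨k, _, hk, _⟩ := H (Fin 11) A maxl nohom (by
    intro v
    have h := outdeg v
    have h2 : Set.ncard {w | A v w} = (Finset.univ.filter (fun w => A v w)).card := by
      rw [← Set.ncard_coe_finset]; congr 1; ext w; simp
    rw [h2, Fintype.card_fin]
    omega)
  rw [Fintype.card_fin] at hk
  omega

end Pool.Agent.Results.MP_ba12ad_co.Disproof
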